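import Pool.Agent.Work.MP_a20dfd.Interface2

/-! # Block DSC (second copy, helper90) -/

set_option autoImplicit false

namespace Pool.Agent.Work.MP_a20dfd

open LaurentPolynomial

namespace DscH90

variable {B W : Type} [Group W] {M : CoxeterMatrix B} {cs : CoxeterSystem M W}

/-- `v + v⁻¹` is not a zero divisor -/
lemma cancel {f : A} (h : (T 1 + T (-1) : A) * f = 0) : f = 0 := by
  have h1 : (T 1 + T (-1) : A) ≠ 0 := by
    intro h0
    have h2 := congrArg (fun g : A => g.coeff 1) h0
    simp only [LaurentPolynomial.T, AddMonoidAlgebra.coeff_add, AddMonoidAlgebra.coeff_single,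
      AddMonoidAlgebra.coeff_zero, Finsupp.add_apply, Finsupp.single_apply, Finsupp.zero_apply] at h2
    norm_num at h2
  rcases mul_eq_zero.1 h with h2 | h2
  · exact absurd h2 h1
  · exact h2

/-- the left part -/
lemma left (hCUP : Stmt_CUP) (hCDN : Stmt_CDN) (K : KL cs) (x y z : W) (h : K.h x y z ≠ 0) (i : B)
    (hx : cs.length (cs.simple i * x) < cs.length x) :
    cs.length (cs.simple i * z) < cs.length z := by
  classical
  by_contra hz
  have h1 : K.kl (cs.simple i) * (K.kl x * K.kl y) = (T 1 + T (-1) : A) • (K.kl x * K.kl y) := by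
    rw [← mul_assoc, hCDN K i x hx, smul_mul_assoc]
  have h2 : K.kl (cs.simple i) * (K.kl x * K.kl y) =
      (K.kl.repr (K.kl x * K.kl y)).sum fun u f => f • (K.kl (cs.simple i) * K.kl u) := by
    conv_lhs => rw [← K.kl.linearCombination_repr (K.kl x * K.kl y)]
    rw [Finsupp.linearCombination_apply, Finsupp.sum, Finset.mul_sum, Finsupp.sum]
    refine Finset.sum_congr rfl fun u _ => ?_
    rw [mul_smul_comm]
  have h3 : K.kl.repr (K.kl (cs.simple i) * (K.kl x * K.kl y)) z = 0 := by
    rw [h2, Finsupp.sum, map_sum, Finsupp.finsetSum_apply]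
    refine Finset.sum_eq_zero fun u _ => ?_
    rw [map_smul, Finsupp.smul_apply]
    have h4 : K.kl.repr (K.kl (cs.simple i) * K.kl u) z = 0 := by
      rcases lt_or_gt_of_ne (cs.length_simple_mul_ne u i) with h5 | h5
      · rw [hCDN K i u h5, map_smul, K.kl.repr_self, Finsupp.smul_apply, Finsupp.single_apply]
        rw [if_neg, smul_zero]
        rintro rfl
        exact hz h5
      · by_contra h6
        exact hz (((hCUP K i u h5).1 z).2 h6)
    rw [h4, smul_zero]
  rw [h1, map_smul, Finsupp.smul_apply, smul_eq_mul] at h3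
  exact h (cancel h3)

end DscH90

open DscH90 in
theorem p_DSC_h90 (hCUP : Stmt_CUP) (hCDN : Stmt_CDN) (hFLK : Stmt_FLK) : Stmt_DSC := by
  intro B W _ M cs K x y z h
  refine ⟨fun i hx => left hCUP hCDN K x y z h i hx, fun i hy => ?_⟩
  have h1 : K.h y⁻¹ x⁻¹ z⁻¹ ≠ 0 := by rw [(hFLK K).2]; exact h
  have e : ∀ w : W, cs.length (cs.simple i * w⁻¹) = cs.length (w * cs.simple i) := by
    intro w
    rw [← cs.length_inv (cs.simple i * w⁻¹), mul_inv_rev, inv_inv, cs.inv_simple]
  have h2 := left hCUP hCDN K y⁻¹ x⁻¹ z⁻¹ h1 i (by rw [e, cs.length_inv]; exact hy)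
  rwa [e, cs.length_inv] at h2

end Pool.Agent.Work.MP_a20dfd
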