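import Pool.Agent.Work.MP_a20dfd.Interface2

/-! # Block NFO (second copy, helper90) -/

set_option autoImplicit false
set_option linter.unusedSectionVars false

namespace Pool.Agent.Work.MP_a20dfd

open LaurentPolynomial

namespace NfoH90

section

variable {B W : Type} [Group W] {M : CoxeterMatrix B} (cs : CoxeterSystem M W)

/-- the sign times the power of `v` -/
noncomputable def ep (w : W) : A := (-1 : A) ^ cs.length w * T (cs.length w : ℤ)

lemma ep_succ {w w' : W} (h : cs.length w = cs.length w' + 1) :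
    ep cs w = -(T 1 * ep cs w') := by
  unfold ep
  rw [h, pow_succ]
  push_cast
  rw [T_add]
  ring

lemma ep_inv (w : W) : ep cs w⁻¹ = ep cs w := by
  unfold ep; rw [cs.length_inv]

lemma ep_one : ep cs (1 : W) = 1 := by
  unfold ep; simp

lemma mem_par {I : Set B} {i : B} (hi : i ∈ I) : cs.simple i ∈ Par cs I :=
  Subgroup.subset_closure ⟨i, hi, rfl⟩

end

section

variable {B W : Type} [Group W] [Fintype W] {M : CoxeterMatrix B} {cs : CoxeterSystem M W}
  (K : KL cs) (I : Set B)

open Classical in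
/-- the antispherical element -/
noncomputable def EE : K.H :=
  ∑ w ∈ Finset.univ.filter (fun w : W => w ∈ Par cs I), ep cs w • K.std w

lemma pair (hHRL : Stmt_HRL) (i : B) (w : W)
    (h : cs.length (cs.simple i * w) = cs.length w + 1) :
    (K.std (cs.simple i) * (ep cs w • K.std w) + (T 1 : A) • (ep cs w • K.std w)) +
      (K.std (cs.simple i) * (ep cs (cs.simple i * w) • K.std (cs.simple i * w)) +
        (T 1 : A) • (ep cs (cs.simple i * w) • K.std (cs.simple i * w))) = 0 := by
  have h1 := K.std_mul i w h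
  have h2 := (hHRL K).1 i (cs.simple i * w) (by
    rw [cs.simple_mul_simple_cancel_left]; omega)
  rw [cs.simple_mul_simple_cancel_left] at h2
  have h3 := ep_succ cs h
  have hv : (T 1 : A) * T (-1) = 1 := by rw [← T_add]; simp
  rw [mul_smul_comm, mul_smul_comm, h1, h2, h3]
  generalize ep cs w = e
  generalize K.std (cs.simple i * w) = X
  generalize K.std w = Y
  have : (e • X + (T 1 : A) • e • Y + (-((T 1 : A) * e) • (Y + (T (-1) - T 1 : A) • X) +
      (T 1 : A) • -((T 1 : A) * e) • X)) = (e - ((T 1 : A) * T (-1)) * e) • X := by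
    module
  rw [this, hv]
  simp

lemma sE (hHRL : Stmt_HRL) {i : B} (hi : i ∈ I) :
    K.std (cs.simple i) * EE K I + (T 1 : A) • EE K I = 0 := by
  classical
  unfold EE
  rw [Finset.mul_sum, Finset.smul_sum, ← Finset.sum_add_distrib]
  refine Finset.sum_involution (fun w _ => cs.simple i * w) ?_ ?_ ?_ ?_
  · intro w hw
    rcases cs.length_simple_mul w i with h | h
    · exact pair K hHRL i w h
    · have h' : cs.length (cs.simple i * (cs.simple i * w)) = cs.length (cs.simple i * w) + 1 := by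
        rw [cs.simple_mul_simple_cancel_left]; omega
      have := pair K hHRL i (cs.simple i * w) h'
      rw [cs.simple_mul_simple_cancel_left] at this
      rw [add_comm]
      exact this
  · intro w hw _ h
    have h1 := cs.length_simple_mul_ne w i
    rw [h] at h1
    exact h1 rfl
  · intro w hw
    rw [Finset.mem_filter] at hw ⊢
    exact ⟨Finset.mem_univ _, (Par cs I).mul_mem (mem_par cs hi) hw.2⟩
  · intro w hw
    exact cs.simple_mul_simple_cancel_left i

lemma wE (hHRL : Stmt_HRL) (hADD : Stmt_ADD) : ∀ (m : ℕ) (w : W), cs.length w = m →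
    w ∈ Par cs I → K.std w * EE K I = ep cs w • EE K I := by
  intro m
  induction m with
  | zero =>
    intro w h _
    rw [cs.length_eq_zero_iff] at h
    rw [h, K.std_one, one_mul, ep_one, one_smul]
  | succ m ih =>
    intro w h hw
    have hns : ¬ Short cs I w := by
      intro hs
      have h1 := hADD cs I w w⁻¹ hs ((Par cs I).inv_mem hw)
      rw [mul_inv_cancel, cs.length_one, cs.length_inv] at h1
      omega
    unfold Short at hns
    push Not at hns
    obtain ⟨i, hi, hlt⟩ := hns
    have h2 : cs.length (w * cs.simple i) + 1 = cs.length w := by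
      rcases cs.length_mul_simple w i with h3 | h3 <;> omega
    have h3 := (hHRL K).2.2 (w * cs.simple i) (cs.simple i) (by
      rw [cs.simple_mul_simple_cancel_right, cs.length_simple]; omega)
    rw [cs.simple_mul_simple_cancel_right] at h3
    have h4 := ih (w * cs.simple i) (by omega) ((Par cs I).mul_mem hw (mem_par cs hi))
    have h5 := sE K I hHRL hi
    have h6 : K.std (cs.simple i) * EE K I = -((T 1 : A) • EE K I) := eq_neg_of_add_eq_zero_left h5
    rw [← h3, mul_assoc, h6, mul_neg, mul_smul_comm, h4, ep_succ cs h2.symm, neg_smul, mul_smul]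

lemma tau_add (x y : K.H) : K.tau (x + y) = K.tau x + K.tau y := by
  unfold KL.tau; rw [map_add]; rfl

lemma tau_smul (f : A) (x : K.H) : K.tau (f • x) = f * K.tau x := by
  unfold KL.tau; rw [map_smul]; rfl

lemma tau_sum {ι : Type} (s : Finset ι) (f : ι → K.H) :
    K.tau (∑ x ∈ s, f x) = ∑ x ∈ s, K.tau (f x) := by
  classical
  unfold KL.tau
  rw [map_sum, Finsupp.finsetSum_apply]

lemma kl_eq (w : W) : K.kl w = ∑ y : W, K.p y w • K.std y := by
  have := K.std.sum_repr (K.kl w)
  exact this.symm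

lemma tau_kl_std (hTAU : Stmt_TAU) (u y : W) : K.tau (K.kl u * K.std y) = K.p y⁻¹ u := by
  classical
  rw [kl_eq, Finset.sum_mul, tau_sum, Finset.sum_eq_single y⁻¹]
  · rw [smul_mul_assoc, tau_smul, hTAU K, inv_mul_cancel, if_pos rfl, mul_one]
  · intro a _ ha
    rw [smul_mul_assoc, tau_smul, hTAU K, if_neg, mul_zero]
    intro h
    exact ha (eq_inv_of_mul_eq_one_left h)
  · intro h
    exact absurd (Finset.mem_univ _) h

lemma xw {hHRL : Stmt_HRL} (hADD : Stmt_ADD) {x w : W} (hx : Short cs I x) (hw : w ∈ Par cs I) :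
    K.std (x * w) = K.std x * K.std w :=
  ((hHRL K).2.2 x w (hADD cs I x w hx hw)).symm

/-- (iv) -/
lemma iv (hHRL : Stmt_HRL) (hTAU : Stmt_TAU) (hADD : Stmt_ADD) (hFLK : Stmt_FLK) {x : W}
    (hx : Short cs I x) (z : W) : K.tau (K.kl z⁻¹ * (K.std x * EE K I)) = n K I x z := by
  classical
  unfold EE n
  rw [Finset.mul_sum, Finset.mul_sum, tau_sum]
  refine Finset.sum_congr rfl fun w hw => ?_
  rw [Finset.mem_filter] at hw
  rw [mul_smul_comm, mul_smul_comm, tau_smul, ← xw (hHRL := hHRL) K I hADD hx hw.2,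
    tau_kl_std K hTAU, (hFLK K).1]
  rfl

/-- (v) -/
lemma vv (hTAU : Stmt_TAU) (u : W) : K.tau (K.kl u * EE K I) = n K I 1 u := by
  classical
  unfold EE n
  rw [Finset.mul_sum, tau_sum]
  refine Finset.sum_bij (fun w _ => w⁻¹) ?_ ?_ ?_ ?_
  · intro w hw
    rw [Finset.mem_filter] at hw ⊢
    exact ⟨Finset.mem_univ _, (Par cs I).inv_mem hw.2⟩
  · intro a _ b _ h
    exact inv_injective h
  · intro b hb
    rw [Finset.mem_filter] at hb
    exact ⟨b⁻¹, Finset.mem_filter.2 ⟨Finset.mem_univ _, (Par cs I).inv_mem hb.2⟩, inv_inv b⟩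
  · intro w _
    rw [mul_smul_comm, tau_smul, tau_kl_std K hTAU, one_mul, cs.length_inv]
    rfl

/-- (iii) -/
lemma iii (hHRL : Stmt_HRL) (hDEC : Stmt_DEC) (hADD : Stmt_ADD) (b : W) [DecidablePred (Short cs I)] :
    K.kl b * EE K I =
      ∑ x ∈ Finset.univ.filter (fun x : W => Short cs I x), n K I x b • (K.std x * EE K I) := by
  classical
  have h1 : ∀ x ∈ Finset.univ.filter (fun x : W => Short cs I x), n K I x b • (K.std x * EE K I) =
      ∑ w ∈ Finset.univ.filter (fun w : W => w ∈ Par cs I),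
        K.p (x * w) b • (K.std (x * w) * EE K I) := by
    intro x hx
    rw [Finset.mem_filter] at hx
    unfold n
    rw [Finset.sum_smul]
    refine Finset.sum_congr (by congr) fun w hw => ?_
    have hw' : w ∈ Par cs I := by
      simpa using hw
    have e : K.std (x * w) * EE K I = ep cs w • (K.std x * EE K I) := by
      rw [xw (hHRL := hHRL) K I hADD hx.2 hw', _root_.mul_assoc (K.std x), wE K I hHRL hADD _ w rfl hw',
        mul_smul_comm]
    rw [e, smul_smul]
    congr 1
    unfold ep
    ring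
  rw [Finset.sum_congr rfl h1, ← Finset.sum_product', kl_eq, Finset.sum_mul]
  symm
  refine Finset.sum_bij (fun q _ => q.1 * q.2) ?_ ?_ ?_ ?_
  · intro q _
    exact Finset.mem_univ _
  · intro q hq q' hq' h
    rw [Finset.mem_product, Finset.mem_filter, Finset.mem_filter] at hq hq'
    obtain ⟨r, -, hr⟩ := hDEC cs I (q.1 * q.2)
    exact (hr q ⟨hq.1.2, hq.2.2, rfl⟩).trans (hr q' ⟨hq'.1.2, hq'.2.2, h.symm⟩).symm
  · intro y _
    obtain ⟨q, ⟨hq1, hq2, hq3⟩, -⟩ := hDEC cs I y
    exact ⟨q, by
      rw [Finset.mem_product, Finset.mem_filter, Finset.mem_filter]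
      exact ⟨⟨Finset.mem_univ _, hq1⟩, ⟨Finset.mem_univ _, hq2⟩⟩, hq3⟩
  · intro q _
    rw [smul_mul_assoc]

end

end NfoH90

open NfoH90 in
theorem p_NFO_h90 (hHRL : Stmt_HRL) (hTAU : Stmt_TAU) (hDEC : Stmt_DEC) (hADD : Stmt_ADD)
    (hFLK : Stmt_FLK) : Stmt_NFO := by
  classical
  intro B W _ _ M cs K I b z
  have e1 : K.tau (K.kl z⁻¹ * (K.kl b * EE K I)) =
      ∑ x ∈ Finset.univ.filter (fun x : W => Short cs I x), n K I x b * n K I x z := by
    rw [iii K I hHRL hDEC hADD b, Finset.mul_sum, tau_sum]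
    refine Finset.sum_congr rfl fun x hx => ?_
    rw [Finset.mem_filter] at hx
    rw [mul_smul_comm, tau_smul, iv K I hHRL hTAU hADD hFLK hx.2]
  have e2 : K.tau (K.kl z⁻¹ * (K.kl b * EE K I)) = ∑ u : W, K.h z⁻¹ b u * n K I 1 u := by
    have h1 : K.kl z⁻¹ * K.kl b = ∑ u : W, K.h z⁻¹ b u • K.kl u :=
      (K.kl.sum_repr (K.kl z⁻¹ * K.kl b)).symm
    rw [← mul_assoc, h1, Finset.sum_mul, tau_sum]
    refine Finset.sum_congr rfl fun u _ => ?_
    rw [smul_mul_assoc, tau_smul, vv K I hTAU]
  rw [← e2, e1]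

end Pool.Agent.Work.MP_a20dfd
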